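import Pool.Agent.BEP.Stmts

/-!
# Squad BEP, row CYR: sharp decay in products
-/

set_option autoImplicit false

namespace Pool.Agent.BEP.H43

open Set Filter Topology MeasureTheory
open scoped InnerProductSpace ENNReal
open Pool.Agent Pool.Agent.BE01 Pool.Agent.BEG Pool.Agent.BEH Pool.Agent.BEP
open Pool.Agent.BEO (BB)
open Pool.Agent.BER (Sh)

theorem cyr (hPmp : PmpStmt) (hSyp : SypStmt) (hSce : SceStmt) (hSpc : SpcStmt) (hCyl : CylStmt)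
    (hFrg : Pool.Agent.BER.FrgStmt) : CyrStmt := by
  intro d m Ω1 Ω2 G hd hm h1 h2 hS hF
  have hC : ∀ p : ℕ, ∃ C : Set ℝ, C.Countable ∧ (1 ≤ p → ∀ R : ℝ, 0 < R → R ∉ C →
      ∃ l, Frc (Sp (Pr (Sc R Ω1) Ω2) (exs m G)) p l) := by
    intro p
    by_cases hp : 1 ≤ p
    · obtain ⟨l1, hl1⟩ := hF p hp
      obtain ⟨C, hC1, hC2⟩ := hCyl d m Ω1 Ω2 G p l1 hd hm h1 h2 hS hl1
      exact ⟨C, hC1, fun _ => hC2⟩
    · exact ⟨∅, countable_empty, fun h => absurd h hp⟩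
  choose C hC1 hC2 using hC
  refine ⟨⋃ p, C p, countable_iUnion hC1, fun R a p hR hRC ha hp => ?_⟩
  obtain ⟨l, ⟨φ, hφ1, hφ2, hφ3⟩, hl1, hl2⟩ := hC2 p hp R hR fun h => hRC (mem_iUnion.2 ⟨p, h⟩)
  have hdom : Dom (Sc R Ω1) := (hSce d Ω1 R 0 (fun _ => 0) hR h1).1
  obtain ⟨e, -, -, -, -, -, hPD⟩ := hPmp d m
  have hD : Dom (Pr (Sc R Ω1) Ω2) := hPD _ _ hdom h2
  have hSy : Syms (Pr (Sc R Ω1) Ω2) (li (exs m G)) := hSyp d m _ _ G (hSpc d Ω1 G R hR h1 hS).1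
  refine hFrg (d + m) (Pr (Sc R Ω1) Ω2) (li (exs m G)) p a l φ (by omega) hD hSy hp ha hφ1 hφ2 hφ3
    ?_ ?_
  · intro n hn1 hn2 hn3 u hu1 hu2
    by_contra hu
    exact hl1 n hn1 hn2 hn3 ⟨u, hu1, hu, hu2⟩
  · intro J
    obtain ⟨M, hM1, hM2⟩ := hl2 J
    refine ⟨M, hM1, fun n hn1 hn2 hn3 u hu1 hu2 => ?_⟩
    by_contra hu
    exact hM2 n hn1 hn2 hn3 ⟨u, hu1, hu, hu2⟩

end Pool.Agent.BEP.H43
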